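import Pool.Agent.H65R4.KU
import Pool.Agent.H65R4.Mix

/-!
ZFC proves that some perfect Polish space contains a universally meager set which is not countably
perfectly meager. Hence `PM_σ = UM` is not consistent with ZFC.
-/

set_option autoImplicit false

open Set Filter Topology Cardinal

namespace Pool.Agent.Results.MP_a16b96_lc.UniversallyMeagreNotPMSigma

open Pool.Agent.H65R4

/-- `X` has no isolated points. -/
def NoIsolated (X : Type) [TopologicalSpace X] : Prop := ∀ x : X, ¬ IsOpen ({x} : Set X)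

/-- A perfect set: nonempty, closed, and without (relatively) isolated points. -/
def PerfectSet {X : Type} [TopologicalSpace X] (P : Set X) : Prop :=
  P.Nonempty ∧ IsClosed P ∧ ∀ x ∈ P, ∀ U : Set X, IsOpen U → x ∈ U → ∃ y ∈ P, y ∈ U ∧ y ≠ x

/-- An `F_σ` set: a union of countably many closed sets. -/
def IsFSigma {X : Type} [TopologicalSpace X] (F : Set X) : Prop :=
  ∃ C : ℕ → Set X, (∀ n, IsClosed (C n)) ∧ F = ⋃ n, C n

/-- `A` is countably perfectly meager in `X`: for each sequence of perfect sets `P n` there is an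
`F_σ` set `F ⊇ A` such that every `F ∩ P n` is meager in the relative topology of `P n`. -/
def CountablyPerfectlyMeager {X : Type} [TopologicalSpace X] (A : Set X) : Prop :=
  ∀ P : ℕ → Set X, (∀ n, PerfectSet (P n)) →
    ∃ F : Set X, IsFSigma F ∧ A ⊆ F ∧ ∀ n, IsMeagre {z : P n | (z : X) ∈ F}

/-- `A` is universally meager: its image is meager for every Borel isomorphism of `X` onto a
perfect Polish space. -/
def UniversallyMeager {X : Type} [TopologicalSpace X] (A : Set X) : Prop :=
  ∀ (Y : Type) [TopologicalSpace Y] [PolishSpace Y], NoIsolated Y →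
    ∀ f : X ≃ Y, (@Measurable X Y (borel X) (borel Y) f) →
      (@Measurable Y X (borel Y) (borel X) f.symm) → IsMeagre (f '' A)

theorem sing_meagre {X : Type} [TopologicalSpace X] [T1Space X] (h : NoIsolated X) (x : X) :
    IsMeagre ({x} : Set X) := by
  refine IsNowhereDense.isMeagre ?_
  show interior (closure {x}) = ∅
  rw [closure_singleton]
  by_contra hne
  obtain ⟨y, hy⟩ := nonempty_iff_ne_empty.2 hne
  have h1 : interior ({x} : Set X) = {x} := by
    refine subset_antisymm interior_subset ?_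
    have hyx : y ∈ ({x} : Set X) := interior_subset hy
    intro z hz
    rw [mem_singleton_iff] at hz hyx
    subst hz
    subst hyx
    exact hy
  exact h x (h1 ▸ isOpen_interior)

theorem countable_meagre {X : Type} [TopologicalSpace X] [T1Space X] (h : NoIsolated X)
    {S : Set X} (hS : S.Countable) : IsMeagre S := by
  have := isMeagre_biUnion (I := S) hS (f := fun x => ({x} : Set X)) fun x _ => sing_meagre h x
  simpa using this

/-- a family of functions indexed by the points of a perfect Polish space which is unbounded on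
every nonmeager set -/
theorem exists_h (Z : Type) [TopologicalSpace Z] [PolishSpace Z] [Nonempty Z]
    (hi : NoIsolated Z) :
    ∃ h : Z → ℕ → ℕ, (∀ y, Monotone (h y)) ∧ ∀ g : ℕ → ℕ, IsMeagre {y | ∀ n, h y n ≤ g n} := by
  letI := TopologicalSpace.upgradeIsCompletelyMetrizable Z
  set d := TopologicalSpace.denseSeq Z with hd
  refine ⟨fun y n => ∑ i ∈ Finset.range (n + 1), ⌈(dist y (d i))⁻¹⌉₊, ?_, ?_⟩
  · intro y m n hmn
    exact Finset.sum_le_sum_of_subset (Finset.range_mono (by omega))
  · intro g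
    set C : Set Z := {y | ∀ i, ((g i : ℝ) + 1)⁻¹ ≤ dist y (d i)} with hC
    have h1 : IsMeagre C := by
      refine IsNowhereDense.isMeagre ?_
      have hCc : IsClosed C := by
        have : C = ⋂ i, {y | ((g i : ℝ) + 1)⁻¹ ≤ dist y (d i)} := by ext y; simp [hC]
        rw [this]
        exact isClosed_iInter fun i => isClosed_le continuous_const (by fun_prop)
      show interior (closure C) = ∅
      rw [hCc.closure_eq]
      by_contra hne
      obtain ⟨i, hi'⟩ := (TopologicalSpace.denseRange_denseSeq Z).exists_mem_open isOpen_interior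
        (nonempty_iff_ne_empty.2 hne)
      have h2 : d i ∈ C := interior_subset hi'
      have h3 := h2 i
      rw [dist_self] at h3
      have h4 : (0 : ℝ) < ((g i : ℝ) + 1)⁻¹ := by positivity
      linarith
    have h2 : IsMeagre (range d) := countable_meagre hi (countable_range d)
    refine (h1.union h2).mono ?_
    intro y hy
    by_cases hr : y ∈ range d
    · exact Or.inr hr
    · left
      intro i
      have h3 : 0 < dist y (d i) := dist_pos.2 fun h => hr ⟨i, h.symm⟩
      have h4 : (⌈(dist y (d i))⁻¹⌉₊ : ℕ) ≤ g i := by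
        refine le_trans ?_ (hy i)
        exact Finset.single_le_sum (f := fun i => ⌈(dist y (d i))⁻¹⌉₊)
          (fun _ _ => Nat.zero_le _) (Finset.mem_range.2 (Nat.lt_succ_self i))
      have h5 : (dist y (d i))⁻¹ ≤ (g i : ℝ) := (Nat.le_ceil _).trans (by exact_mod_cast h4)
      rw [inv_le_comm₀ (by positivity) h3]
      linarith

/-- a Borel set with meager sections, universal for meager sets -/
theorem exists_universal (Z : Type) [TopologicalSpace Z] [PolishSpace Z] [Nonempty Z]
    [MeasurableSpace Z] [BorelSpace Z] :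
    ∃ M : Set ((ℕ → Bool) × Z), MeasurableSet M ∧ (∀ c, IsMeagre {y | (c, y) ∈ M}) ∧
      ∀ S : Set Z, IsMeagre S → ∃ c, ∀ y ∈ S, (c, y) ∈ M := by
  classical
  have hbne : (TopologicalSpace.countableBasis Z).Nonempty := by
    obtain ⟨z⟩ := (inferInstance : Nonempty Z)
    obtain ⟨v, hv, _⟩ := (TopologicalSpace.isBasis_countableBasis Z).exists_subset_of_mem_open
      (mem_univ z) isOpen_univ
    exact ⟨v, hv⟩
  obtain ⟨V, hV⟩ := (TopologicalSpace.countable_countableBasis Z).exists_eq_range hbne
  have hVb : TopologicalSpace.IsTopologicalBasis (range V) :=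
    hV ▸ TopologicalSpace.isBasis_countableBasis Z
  have hVo : ∀ n, IsOpen (V n) := fun n => hVb.isOpen ⟨n, rfl⟩
  let Dn : ℕ → (ℕ → Bool) → Prop := fun k c =>
    ∀ m, (V m).Nonempty → ∃ n, c (Nat.pair k n) = true ∧ (V n ∩ V m).Nonempty
  let M : Set ((ℕ → Bool) × Z) :=
    {p | ∃ k, Dn k p.1 ∧ ∀ n, p.1 (Nat.pair k n) = true → p.2 ∉ V n}
  refine ⟨M, ?_, ?_, ?_⟩
  · have hc : ∀ i : ℕ, Measurable fun p : (ℕ → Bool) × Z => p.1 i = true := by
      intro i
      have h1 : Measurable fun p : (ℕ → Bool) × Z => p.1 i := (measurable_pi_apply i).comp measurable_fst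
      exact (measurable_of_countable (fun b : Bool => b = true)).comp h1
    rw [measurableSet_setOf]
    refine Measurable.exists fun k => Measurable.and ?_ ?_
    · refine Measurable.forall fun m => Measurable.imp measurable_const ?_
      exact Measurable.exists fun n => (hc _).and measurable_const
    · refine Measurable.forall fun n => (hc _).imp ?_
      have : MeasurableSet {p : (ℕ → Bool) × Z | p.2 ∉ V n} :=
        ((hVo n).measurableSet.compl).preimage measurable_snd
      exact measurableSet_setOf.1 this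
  · intro c
    have h1 : {y | (c, y) ∈ M} ⊆ ⋃ k ∈ {k | Dn k c}, (⋃ n ∈ {n | c (Nat.pair k n) = true}, V n)ᶜ := by
      rintro y ⟨k, hk, hy⟩
      simp only [mem_iUnion, mem_setOf_eq, mem_compl_iff, not_exists]
      exact ⟨k, hk, fun n hn => hy n hn⟩
    refine IsMeagre.mono h1 (isMeagre_biUnion (to_countable _) ?_)
    intro k hk
    rw [IsMeagre, compl_compl]
    refine residual_of_dense_open (isOpen_biUnion fun n _ => hVo n) ?_
    rw [hVb.dense_iff]
    rintro _ ⟨m, rfl⟩ hne
    obtain ⟨n, hn1, z, hz1, hz2⟩ := hk m hne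
    exact ⟨z, hz2, mem_biUnion (show n ∈ {n | c (Nat.pair k n) = true} from hn1) hz1⟩
  · intro S hS
    rw [isMeagre_iff_countable_union_isNowhereDense] at hS
    obtain ⟨T, hT, hTc, hsub⟩ := hS
    obtain ⟨F, hF⟩ : ∃ F : ℕ → Set Z, (∀ k, IsNowhereDense (F k)) ∧ ∀ t ∈ T, ∃ k, F k = t := by
      rcases T.eq_empty_or_nonempty with rfl | hne
      · exact ⟨fun _ => ∅, fun _ => isNowhereDense_empty, fun t ht => absurd ht (notMem_empty _)⟩
      · obtain ⟨F, rfl⟩ := hTc.exists_eq_range hne
        exact ⟨F, fun k => hT _ ⟨k, rfl⟩, fun t ht => ht⟩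
    refine ⟨fun i => decide (V (Nat.unpair i).2 ⊆ (closure (F (Nat.unpair i).1))ᶜ), ?_⟩
    intro y hy
    obtain ⟨t, ht, hyt⟩ := hsub hy
    obtain ⟨k, rfl⟩ := hF.2 t ht
    have hnd : Dense (closure (F k))ᶜ := by
      rw [← interior_eq_empty_iff_dense_compl]
      exact hF.1 k
    refine ⟨k, ?_, ?_⟩
    · intro m hm
      obtain ⟨z, hz1, hz2⟩ := hnd.inter_open_nonempty (V m) (hVo m) hm
      obtain ⟨_, ⟨n, rfl⟩, hzn, hn⟩ := hVb.exists_subset_of_mem_open hz2 isClosed_closure.isOpen_compl
      refine ⟨n, ?_, ⟨z, hzn, hz1⟩⟩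
      simpa using hn
    · intro n hn hyn
      simp only [Nat.unpair_pair, decide_eq_true_eq] at hn
      exact hn hyn (subset_closure hyt)

/-- Sections of product Borel sets. -/
theorem borel_prod_eq {X Y : Type} [TopologicalSpace X] [TopologicalSpace Y]
    [SecondCountableTopology X] [SecondCountableTopology Y] :
    borel (X × Y) = @Prod.instMeasurableSpace X Y (borel X) (borel Y) := by
  letI : MeasurableSpace X := borel X
  letI : MeasurableSpace Y := borel Y
  haveI : BorelSpace X := ⟨rfl⟩
  haveI : BorelSpace Y := ⟨rfl⟩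
  exact (Prod.borelSpace (α := X) (β := Y)).measurable_eq.symm

/-- **ZFC proves that there are a perfect Polish space `X` and a universally meager set `A ⊆ X`
which is not countably perfectly meager in `X`.** -/
theorem result :
    ∃ (X : Type) (_ : TopologicalSpace X) (_ : PolishSpace X), NoIsolated X ∧
      ∃ A : Set X, UniversallyMeager A ∧ ¬ CountablyPerfectlyMeager A := by
  classical
  -- the least size of a nonmeager set
  let S : Set Cardinal.{0} := {κ | ∃ (Y : Type) (_ : TopologicalSpace Y) (_ : PolishSpace Y),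
    NoIsolated Y ∧ ∃ T : Set Y, ¬ IsMeagre T ∧ #T = κ}
  have hSne : S.Nonempty := by
    refine ⟨#(univ : Set ℝ), ℝ, inferInstance, inferInstance, ?_, univ, ?_, rfl⟩
    · intro x hx
      exact not_isOpen_singleton x hx
    · exact not_isMeagre_of_isOpen isOpen_univ univ_nonempty
  obtain ⟨Z, tZ, pZ, hiZ, T, hT, hTκ⟩ := csInf_mem hSne
  set κ : Cardinal.{0} := sInf S with hκ
  have hmin : ∀ (Y : Type) [TopologicalSpace Y] [PolishSpace Y], NoIsolated Y → ∀ T' : Set Y,
      #T' < κ → IsMeagre T' := by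
    intro Y _ _ hY T' hT'
    by_contra hcon
    exact absurd (csInf_le' (show #T' ∈ S from ⟨Y, inferInstance, inferInstance, hY, T', hcon, rfl⟩)) (not_le.2 hT')
  have hℵ : ℵ₀ ≤ κ := by
    by_contra hcon
    push Not at hcon
    rw [← hTκ, Cardinal.lt_aleph0_iff_set_finite] at hcon
    exact hT (countable_meagre hiZ hcon.countable)
  haveI : Nonempty Z := (nonempty_of_not_isMeagre hT).to_type
  -- indices
  let I : Type := κ.ord.ToType
  have hI : #I = κ := by simp [I]
  obtain ⟨e⟩ : Nonempty (I ≃ T) := Cardinal.eq.1 (hI.trans hTκ.symm)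
  have hIic : ∀ ξ : I, #(Iic ξ) < κ := by
    intro ξ
    have h1 : #(Iio ξ) < κ := by
      have := Cardinal.mk_Iio_lt ξ (by simp [I])
      rwa [hI] at this
    have h2 : (Iic ξ : Set I) = insert ξ (Iio ξ) := Iio_insert.symm
    rw [h2]
    refine (Cardinal.mk_insert_le).trans_lt ?_
    exact Cardinal.add_lt_of_lt hℵ h1 (Cardinal.one_lt_aleph0.trans_le hℵ)
  letI mZ : MeasurableSpace Z := borel Z
  haveI bZ : BorelSpace Z := ⟨rfl⟩
  obtain ⟨M, hMm, hMs, hMu⟩ := exists_universal Z
  obtain ⟨h, hmono, hunb⟩ := exists_h Z hiZ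
  have hc : ∀ ξ : I, ∃ c : ℕ → Bool, ∀ η ≤ ξ, (c, (e η : Z)) ∈ M := by
    intro ξ
    have h1 : IsMeagre ((fun η : I => (e η : Z)) '' Iic ξ) :=
      hmin Z hiZ _ (Cardinal.mk_image_le.trans_lt (hIic ξ))
    obtain ⟨c, hc⟩ := hMu _ h1
    exact ⟨c, fun η hη => hc _ ⟨η, hη, rfl⟩⟩
  choose c hc using hc
  -- the space and the set
  let a : I × I → (ℕ → ℝ) × Z := fun p => (mix (h (e p.1)) (c (max p.1 p.2)), (e p.2 : Z))
  have hdist : ∀ q : ℕ → ℝ, ∀ z : Z, ∀ U : Set ((ℕ → ℝ) × Z), IsOpen U → (q, z) ∈ U →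
      ∃ z', (q, z') ∈ U ∧ z' ≠ z := by
    intro q z U hU hqz
    by_contra hcon
    push Not at hcon
    have h1 : {z' | (q, z') ∈ U} = {z} := by
      ext z'
      exact ⟨fun hz => hcon z' hz, fun hz => by rw [mem_singleton_iff.1 hz]; exact hqz⟩
    exact hiZ z (h1 ▸ hU.preimage (by fun_prop : Continuous fun z' : Z => (q, z')))
  refine ⟨(ℕ → ℝ) × Z, inferInstance, inferInstance, ?_, range a, ?_, ?_⟩
  · rintro ⟨q, z⟩ ho
    obtain ⟨z', hz', hne⟩ := hdist q z _ ho rfl
    exact hne (Prod.ext_iff.1 hz').2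
  · -- universally meager
    intro Y _ _ hY f hf hf'
    letI : MeasurableSpace Y := borel Y
    haveI : BorelSpace Y := ⟨rfl⟩
    rw [borel_prod_eq] at hf'
    have hf1 : Measurable fun p : Y × Z => (f.symm p.1).1 := by
      have h1 : Measurable (fun y : Y => (f.symm y).1) := by
        have h2 : borel (ℕ → ℝ) = (inferInstance : MeasurableSpace (ℕ → ℝ)) :=
          (Pi.borelSpace (X := fun _ : ℕ => ℝ)).measurable_eq.symm
        have h3 := (@measurable_fst (ℕ → ℝ) Z (borel _) (borel _)).comp hf'
        rw [h2] at h3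
        exact h3
      exact h1.comp measurable_fst
    let B : Set (Y × Z) := {p | (decC (f.symm p.1).1, p.2) ∈ M}
    have hB : MeasurableSet B :=
      hMm.preimage ((measurable_decC.comp hf1).prodMk measurable_snd)
    have hKU := ku_borel (B := B) hB.baireMeasurableSet (fun y => hMs (decC (f.symm y).1))
    obtain ⟨γ, hγ⟩ : ∃ γ : I, IsMeagre {y : Y | (y, (e γ : Z)) ∈ B} := by
      by_contra hcon
      push Not at hcon
      refine hT ?_
      rw [IsMeagre]
      filter_upwards [hKU] with z hz hzT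
      have := hcon (e.symm ⟨z, hzT⟩)
      rw [Equiv.apply_symm_apply] at this
      exact this hz
    have hsmall : IsMeagre (f '' (a '' (Iic γ ×ˢ Iic γ))) := by
      refine hmin Y hY _ (Cardinal.mk_image_le.trans_lt (Cardinal.mk_image_le.trans_lt ?_))
      rw [Cardinal.mk_setProd]
      exact Cardinal.mul_lt_of_lt hℵ (hIic γ) (hIic γ)
    refine (hγ.union hsmall).mono ?_
    rintro _ ⟨_, ⟨p, rfl⟩, rfl⟩
    by_cases hp : max p.1 p.2 ≤ γ
    · right
      exact mem_image_of_mem _ (mem_image_of_mem _ ⟨(le_max_left _ _).trans hp, (le_max_right _ _).trans hp⟩)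
    · left
      show (decC (f.symm (f (a p))).1, (e γ : Z)) ∈ M
      rw [Equiv.symm_apply_apply]
      show (decC (mix _ _), (e γ : Z)) ∈ M
      rw [decC_mix]
      exact hc _ _ (not_le.1 hp).le
  · -- not countably perfectly meager
    intro hPM
    obtain ⟨q, hq⟩ := exists_surjective_nat (Σ n : ℕ, (Fin n → ℕ))
    obtain ⟨F, ⟨C, hC, rfl⟩, hAF, hF⟩ := hPM (fun n => {p | p.1 = dsq (q n)}) (by
      intro n
      refine ⟨?_, isClosed_eq continuous_fst continuous_const, ?_⟩
      · obtain ⟨z⟩ := (inferInstance : Nonempty Z)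
        exact ⟨(dsq (q n), z), rfl⟩
      · rintro ⟨w, z⟩ hw U hU hwz
        obtain ⟨z', hz', hne⟩ := hdist w z U hU hwz
        exact ⟨(w, z'), hw, hz', fun h => hne (Prod.ext_iff.1 h).2⟩)
    have hsec : ∀ n, IsMeagre {z : Z | (dsq (q n), z) ∈ ⋃ k, C k} := by
      intro n
      let P : Set ((ℕ → ℝ) × Z) := {p | p.1 = dsq (q n)}
      let φ : Z ≃ₜ P :=
        { toFun := fun z => ⟨(dsq (q n), z), rfl⟩
          invFun := fun p => p.1.2
          left_inv := fun z => rfl
          right_inv := by
            rintro ⟨⟨w, z⟩, hw⟩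
            have hw' : w = dsq (q n) := hw
            subst hw'
            rfl
          continuous_toFun := by fun_prop
          continuous_invFun := by fun_prop }
      exact (hF n).preimage_of_isOpenMap φ.continuous φ.isOpenMap
    refine hT ((isMeagre_iUnion hsec).mono ?_)
    intro y hy
    by_contra hyn
    simp only [mem_iUnion, mem_setOf_eq, not_exists] at hyn
    obtain ⟨j, hj⟩ := e.surjective ⟨y, hy⟩
    -- the closed sets of first coordinates miss the countable set
    have hb : ∀ k, ∃ g : ℕ → ℕ, ∀ x : ℕ → ℕ, Monotone x → ∀ c, mix x c ∈ {w | (w, y) ∈ C k} →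
        ∀ n, x n ≤ g n := by
      intro k
      refine mix_bound ((hC k).preimage (by fun_prop : Continuous fun w : ℕ → ℝ => (w, y))) ?_
      intro p hp
      obtain ⟨n, rfl⟩ := hq p
      exact hyn n k hp
    choose g hg using hb
    have hcov : T ⊆ ⋃ k, {z | ∀ n, h z n ≤ g k n} := by
      intro z hz
      obtain ⟨i, hi⟩ := e.surjective ⟨z, hz⟩
      have h1 : a (i, j) ∈ ⋃ k, C k := hAF ⟨(i, j), rfl⟩
      obtain ⟨k, hk⟩ := mem_iUnion.1 h1
      have hei : (e i : Z) = z := by rw [hi]
      have hej : (e j : Z) = y := by rw [hj]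
      refine mem_iUnion.2 ⟨k, fun n => hg k (h z) (hmono z) (c (max i j)) ?_ n⟩
      show (mix (h z) (c (max i j)), y) ∈ C k
      have h2 : a (i, j) = (mix (h (e i)) (c (max i j)), (e j : Z)) := rfl
      rw [← hei, ← hej, ← h2]
      exact hk
    exact hT ((isMeagre_iUnion fun k => hunb (g k)).mono hcov)

end Pool.Agent.Results.MP_a16b96_lc.UniversallyMeagreNotPMSigma
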